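import Mathlib
import Pool.Agent.helper81.DI.SpecD

/-!
# Project di, module D8 (MP_baa4d7_al): the trivial embedding
-/

set_option autoImplicit false

namespace Pool.Agent.DI

open Pool.Agent.helper58.DC

theorem D8 : D8_stmt := by
  intro G E A _ _ _ X
  refine ⟨{ i := X.inc
            π := (⊤ : Subgroup E).subtype
            i_inj := X.inc_injective
            π_surj := fun e => ⟨⟨e, Subgroup.mem_top e⟩, rfl⟩
            range := (top_inf_eq _).symm
            compat := fun _ _ => rfl
            act := fun m k => X.act_spec (m : E) k
            card := ?_ }, rfl⟩
  rw [Subgroup.ker_subtype]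
  exact Nat.card_unique

end Pool.Agent.DI
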