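import Mathlib
import Pool.Agent.helper81.DI.SpecC

/-!
# Project di, module C15 (MP_baa4d7_al): representatives of the blocks
-/

set_option autoImplicit false

namespace Pool.Agent.DI

open Pool.Agent.helper58.DC

theorem C15 (hIM : IM_stmt) (hIRF : IRF_stmt) : C15_stmt := by
  classical
  intro Γ _ _ M
  have hfin : (Irr Γ).Finite := (hIRF Γ).1
  have hrefl : ∀ χ : Γ → ℂ, Induces M χ χ := fun χ => (hIM Γ M χ χ χ).1
  have hsymm : ∀ χ χ' : Γ → ℂ, Induces M χ χ' → Induces M χ' χ := fun χ χ' => (hIM Γ M χ χ' χ).2.1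
  have htrans : ∀ χ χ' χ'' : Γ → ℂ, Induces M χ χ' → Induces M χ' χ'' → Induces M χ χ'' :=
    fun χ χ' χ'' => (hIM Γ M χ χ' χ'').2.2.1
  let s : Setoid (Irr Γ) :=
    { r := fun χ χ' => Induces M χ.1 χ'.1
      iseqv := ⟨fun χ => hrefl χ.1, fun h => hsymm _ _ h, fun h h' => htrans _ _ _ h h'⟩ }
  have hf1 : Finite (Irr Γ) := hfin.to_subtype
  have hf2 : Finite (Quotient s) := Quotient.finite s
  have hf3 : (Set.range fun q : Quotient s => (q.out : Γ → ℂ)).Finite := Set.finite_range _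
  refine ⟨hf3.toFinset, ?_, ?_⟩
  · intro b hb
    rw [Set.Finite.mem_toFinset] at hb
    obtain ⟨q, rfl⟩ := hb
    exact q.out.2
  · rintro ψ ⟨χ, hχ, hψ⟩
    have h1 : Induces M ((Quotient.mk s ⟨χ, hχ⟩).out : Γ → ℂ) χ := Quotient.exact
      (Quotient.out_eq (Quotient.mk s ⟨χ, hχ⟩))
    refine ⟨((Quotient.mk s ⟨χ, hχ⟩).out : Γ → ℂ), ⟨?_, htrans _ _ _ hψ (hsymm _ _ h1)⟩, ?_⟩
    · rw [Set.Finite.mem_toFinset]
      exact ⟨_, rfl⟩
    · rintro b ⟨hb, hb'⟩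
      rw [Set.Finite.mem_toFinset] at hb
      obtain ⟨q, rfl⟩ := hb
      have h2 : Induces M (q.out : Γ → ℂ) χ := htrans _ _ _ (hsymm _ _ hb') hψ
      have h3 : q = Quotient.mk s ⟨χ, hχ⟩ := by
        rw [← Quotient.out_eq q]
        exact Quotient.sound h2
      rw [h3]

end Pool.Agent.DI
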